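import Pool.Agent.N576.QA.Roots

set_option autoImplicit false

open Polynomial Filter

namespace Pool.Agent.Results.MP_a17b09_nt.AllClassesOfOmega

/-- a nonzero integer with at most `R` prime factors (with multiplicity), all larger than `y` -/
def AlmostPrime (y : ℝ) (R : ℕ) (m : ℤ) : Prop :=
  m ≠ 0 ∧ (∀ p : ℕ, p.Prime → (p : ℤ) ∣ m → y < p) ∧ ArithmeticFunction.cardFactors m.natAbs ≤ R

/-- the number of the integers `1 ≤ n ≤ X` such that `f n = a n² + b n + c` is positive, `f n` and all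
the `g_j n` are almost prime (at most `R` prime factors, all larger than `X ^ δ`), and `P n` holds -/
noncomputable def num (a b c : ℤ) {s : ℕ} (g : Fin s → ℤ[X]) (δ : ℝ) (R X : ℕ) (P : ℕ → Prop) : ℕ :=
  {n : ℕ | 1 ≤ n ∧ n ≤ X ∧ 0 < a * (n : ℤ) ^ 2 + b * n + c ∧
    AlmostPrime ((X : ℝ) ^ δ) R (a * (n : ℤ) ^ 2 + b * n + c) ∧
    (∀ j, AlmostPrime ((X : ℝ) ^ δ) R ((g j).eval (n : ℤ))) ∧ P n}.ncard

/-- the number of prime factors `p` of `r`, counted with multiplicity, for which `n ≡ ρ p (mod p)` -/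
def rootCount (ρ : ℕ → ℤ) (r : ℕ) (n : ℤ) : ℕ :=
  (r.primeFactorsList.filter (fun p : ℕ => (p : ℤ) ∣ n - ρ p)).length

/-- Let `f = a n² + b n + c` with integers `a > 0`, `b`, `c`, `b² - 4ac ≠ 0`, and let `g_j` (`j < s`)
be integer polynomials such that for every prime `p` some integer `n` makes `f n` and all the `g_j n`
prime to `p`. Let `ε > 0`.

(1) Let `k` be odd. There are `R`, `X₀`, `δ > 0` such that for all `X ≥ X₀` and EVERY class `t` modulo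
`k`, at least `X ^ (1 - ε)` integers `1 ≤ n ≤ X` are such that `f n > 0`, `f n` and all the `g_j n`
are almost prime (at most `R` prime factors, all larger than `X ^ δ`) and `Ω(f n) ≡ t (mod k)`.

(2) Let `k ≥ 1` be even or odd. There are `R`, `X₀`, `δ > 0` such that for all `X ≥ X₀` and for every
choice `ρ p` of a root of `f` modulo each prime `p` modulo which `f` has a root, there is a class `h`
modulo `k` such that for EVERY class `t` modulo `k`, at least `X ^ (1 - ε)` integers `n ≤ X` as above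
are such that the number of prime factors `p` of `f n` with `n ≡ ρ p (mod p)` is `≡ t (mod k)` and
`Ω(f n) ≡ 2 t + h (mod k)`.

(3) The general form, for an arbitrary function `Φ (r, ν)` with values in a finite abelian group that
is defined when `r ∣ f ν`, depends on `ν` modulo `r` only, is completely additive in `r`, and for
which `Φ (p, ν) + Φ (p, ν') = γ` is the same for all the pairs of different roots `ν, ν'` of `f`
modulo `p`, for the primes `X ^ δ < p ≤ X ^ ε`, `p ≡ 1 (mod q₀)`, and arbitrary at the other primes: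
the values `Φ (f n, n)` of the integers `n ≤ X` as above contain a whole coset `h + ⟨γ⟩`, each element
of it being taken at least `X ^ (1 - ε)` times. -/
theorem result (a b c : ℤ) (ha : 0 < a) (hD : b ^ 2 - 4 * a * c ≠ 0) {s : ℕ} (g : Fin s → ℤ[X])
    (hadm : ∀ p : ℕ, p.Prime → ∃ n : ℤ, ¬ (p : ℤ) ∣ a * n ^ 2 + b * n + c ∧
      ∀ j, ¬ (p : ℤ) ∣ (g j).eval n) (ε : ℝ) (hε : 0 < ε) :
    (∀ k : ℕ, Odd k → ∃ R X₀ : ℕ, ∃ δ : ℝ, 0 < δ ∧ ∀ X : ℕ, X₀ ≤ X → ∀ t : ZMod k,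
      (X : ℝ) ^ (1 - ε) ≤ (num a b c g δ R X (fun n =>
        ((ArithmeticFunction.cardFactors (a * (n : ℤ) ^ 2 + b * n + c).natAbs : ℕ) : ZMod k) =
          t) : ℝ)) ∧
    (∀ k : ℕ, 0 < k → ∃ R X₀ : ℕ, ∃ δ : ℝ, 0 < δ ∧ ∀ X : ℕ, X₀ ≤ X → ∀ ρ : ℕ → ℤ,
      (∀ p : ℕ, p.Prime → (∃ ν : ℤ, (p : ℤ) ∣ a * ν ^ 2 + b * ν + c) →
        (p : ℤ) ∣ a * (ρ p) ^ 2 + b * (ρ p) + c) →
      ∃ h : ZMod k, ∀ t : ZMod k, (X : ℝ) ^ (1 - ε) ≤ (num a b c g δ R X (fun n =>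
        ((rootCount ρ (a * (n : ℤ) ^ 2 + b * n + c).natAbs n : ℕ) : ZMod k) = t ∧
        ((ArithmeticFunction.cardFactors (a * (n : ℤ) ^ 2 + b * n + c).natAbs : ℕ) : ZMod k) =
          2 * t + h) : ℝ)) ∧
    (∀ (Γ : Type) [AddCommGroup Γ] [Finite Γ] (γ : Γ) (q₀ : ℕ), 0 < q₀ →
      ∃ R X₀ : ℕ, ∃ δ : ℝ, 0 < δ ∧ ∀ X : ℕ, X₀ ≤ X → ∀ Φ : ℕ → ℤ → Γ,
      (∀ r s : ℕ, r ≠ 0 → s ≠ 0 → ∀ ν : ℤ, ((r * s : ℕ) : ℤ) ∣ a * ν ^ 2 + b * ν + c →
        Φ (r * s) ν = Φ r ν + Φ s ν) →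
      (∀ r : ℕ, r ≠ 0 → ∀ ν ν' : ℤ, (r : ℤ) ∣ a * ν ^ 2 + b * ν + c → (r : ℤ) ∣ ν - ν' →
        Φ r ν = Φ r ν') →
      (∀ p : ℕ, p.Prime → p % q₀ = 1 % q₀ → (X : ℝ) ^ δ < p → (p : ℝ) ≤ (X : ℝ) ^ ε →
        ∀ ν ν' : ℤ, (p : ℤ) ∣ a * ν ^ 2 + b * ν + c → (p : ℤ) ∣ a * ν' ^ 2 + b * ν' + c →
        ¬ (p : ℤ) ∣ ν - ν' → Φ p ν + Φ p ν' = γ) →
      ∃ h : Γ, ∀ j : ℕ, (X : ℝ) ^ (1 - ε) ≤ (num a b c g δ R X (fun n =>
        Φ (a * (n : ℤ) ^ 2 + b * n + c).natAbs n = h + j • γ) : ℝ)) := by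
  classical
  refine ⟨?_, ?_, ?_⟩
  · intro k hk
    obtain ⟨R, X₀, δ, hδ, H⟩ := Pool.Agent.N576.QA.roots a b c ha hD g hadm k hk.pos ε hε
    refine ⟨R, X₀, δ, hδ, fun X hX t => ?_⟩
    obtain ⟨ρ, hρ⟩ : ∃ ρ : ℕ → ℤ, ∀ p : ℕ, p.Prime →
        (∃ ν : ℤ, (p : ℤ) ∣ a * ν ^ 2 + b * ν + c) →
        (p : ℤ) ∣ a * (ρ p) ^ 2 + b * (ρ p) + c := by
      refine ⟨fun p => if h : ∃ ν : ℤ, (p : ℤ) ∣ a * ν ^ 2 + b * ν + c then h.choose else 0,
        fun p _ h => ?_⟩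
      simp only [dif_pos h]
      exact h.choose_spec
    obtain ⟨h, hh⟩ := H X hX ρ hρ
    obtain ⟨u, hu⟩ : ∃ u : ZMod k, 2 * u = t - h := by
      have h2 : IsUnit ((2 : ℕ) : ZMod k) :=
        (ZMod.isUnit_iff_coprime 2 k).2 (Nat.coprime_two_left.2 hk)
      obtain ⟨v, hv⟩ := h2
      refine ⟨(v⁻¹ : (ZMod k)ˣ) * (t - h), ?_⟩
      have h3 : (2 : ZMod k) = (v : ZMod k) := by rw [hv]; norm_num
      rw [h3, ← mul_assoc, Units.mul_inv, one_mul]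
    refine (hh u).trans ?_
    have hfin : {n : ℕ | 1 ≤ n ∧ n ≤ X ∧ 0 < a * (n : ℤ) ^ 2 + b * n + c ∧
        AlmostPrime ((X : ℝ) ^ δ) R (a * (n : ℤ) ^ 2 + b * n + c) ∧
        (∀ j, AlmostPrime ((X : ℝ) ^ δ) R ((g j).eval (n : ℤ))) ∧
        ((ArithmeticFunction.cardFactors (a * (n : ℤ) ^ 2 + b * n + c).natAbs : ℕ) : ZMod k) =
          t}.Finite := (Set.finite_Iic X).subset fun n hn => hn.2.1
    have hsub : Pool.Agent.N576.QA.Vals a b c g (fun r ν =>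
        (((Pool.Agent.N576.QA.rootCount ρ r ν : ℕ) : ZMod k),
        ((ArithmeticFunction.cardFactors r : ℕ) : ZMod k))) δ R X (u, 2 * u + h) ⊆
        {n : ℕ | 1 ≤ n ∧ n ≤ X ∧ 0 < a * (n : ℤ) ^ 2 + b * n + c ∧
        AlmostPrime ((X : ℝ) ^ δ) R (a * (n : ℤ) ^ 2 + b * n + c) ∧
        (∀ j, AlmostPrime ((X : ℝ) ^ δ) R ((g j).eval (n : ℤ))) ∧
        ((ArithmeticFunction.cardFactors (a * (n : ℤ) ^ 2 + b * n + c).natAbs : ℕ) : ZMod k) =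
          t} := by
      rintro n ⟨h1, h2, h3, h4, h5, h6⟩
      refine ⟨h1, h2, h3, h4, h5, ?_⟩
      have h7 := congrArg Prod.snd h6
      simp only at h7
      rw [h7, hu]
      ring
    exact_mod_cast Set.ncard_le_ncard hsub hfin
  · intro k hk
    obtain ⟨R, X₀, δ, hδ, H⟩ := Pool.Agent.N576.QA.roots a b c ha hD g hadm k hk ε hε
    refine ⟨R, X₀, δ, hδ, fun X hX ρ hρ => ?_⟩
    obtain ⟨h, hh⟩ := H X hX ρ hρ
    refine ⟨h, fun t => (hh t).trans (le_of_eq ?_)⟩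
    unfold num Pool.Agent.N576.QA.Vals
    congr 1
    congr 1
    ext n
    simp only [Set.mem_ofPred_eq, Prod.mk.injEq]
    exact Iff.rfl
  · intro Γ _ _ γ q₀ hq₀
    exact Pool.Agent.N576.QA.main a b c ha hD g hadm Γ γ q₀ hq₀ ε hε

end Pool.Agent.Results.MP_a17b09_nt.AllClassesOfOmega
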