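import Pool.Agent.N728.QG.All2

set_option autoImplicit false

/-!
# Conjecture F of Hardy and Littlewood for almost all linear coefficients

Fix integers `a > 0` and `c ≠ 0`. For every `ε > 0`, `K` and `C₂`, all large `B` and all `T` with
`B / (log B)^C₂ ≤ T ≤ K B`: for all but at most `ε B` of the integers `1 ≤ b ≤ B` for which `(a, b, c)` is admissible,
the product `C(a, b, c)` converges and

`|π_f(T) - 2 C(a, b, c) ∑_{t ≤ T} 1 / log f(t)| ≤ ε T / log T`, `f(t) = a t² + b t + c`.

Proof (`Agent/N728/QL`, `Agent/N728/QG`): `f(t) = u v + c` with `u = t`, `v = b + a t`. Bilinear sums over `u v + c` with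
an arbitrary bounded function of `b = v - a u` do not change if a divisor of `u v`, composed of primes of a suitable
range, is moved from `u` to `v`; by the multiplication table phenomenon of Erdős few multiplicative windows contain such
a divisor, and the off-diagonal terms are bounded by two applications of the Cauchy-Schwarz inequality and the
fundamental lemma of the sieve (functions with mean zero on the cells (residue class and block)), and by the prime number
theorem for the moved divisors and the theorem of Bombieri and Vinogradov at the sharp level (functions constant on the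
cells); for `T` of the order of `B` the range is first shifted, by moving divisors again, to `T ≤ B / (log B)^C`.
-/

namespace Pool.Agent.Results.MP_a17b09_nt.AlmostAllLinearCoefficients

open Finset Filter Topology

/-- The polynomial. -/
def f (a b c : ℤ) (t : ℕ) : ℤ := a * (t : ℤ) ^ 2 + b * t + c

/-- The triple `(a, b, c)`, `a > 0`, is admissible. -/
def Admissible (a b c : ℤ) : Prop :=
  Int.gcd (Int.gcd a b : ℤ) c = 1 ∧ ¬ (Even (a + b) ∧ Even c) ∧ ¬ IsSquare (b ^ 2 - 4 * a * c)

/-- The products which define `C(a, b, c)`, over the primes `p ≤ z` (`jacobiSym Δ p` is the Legendre symbol). -/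
noncomputable def partialC (a b c : ℤ) (z : ℕ) : ℝ :=
  (if Odd (a + b) then 1 / 2 else 1) *
    (∏ p ∈ (Icc 3 z).filter (fun p : ℕ => p.Prime ∧ (p : ℤ) ∣ a ∧ (p : ℤ) ∣ b), (p : ℝ) / (p - 1)) *
    ∏ p ∈ (Icc 3 z).filter (fun p : ℕ => p.Prime ∧ ¬ (p : ℤ) ∣ a),
      (1 - (jacobiSym (b ^ 2 - 4 * a * c) p : ℝ) / (p - 1))

/-- `K = C(a, b, c)`: the products over the primes, in increasing order, converge to `K`. -/
def IsC (a b c : ℤ) (K : ℝ) : Prop := Tendsto (partialC a b c) atTop (𝓝 K)

/-- `π_f(y)`. -/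
def count (a b c : ℤ) (y : ℕ) : ℕ := ((Icc 1 y).filter (fun t : ℕ => (f a b c t).toNat.Prime)).card

/-- The conclusion for one linear coefficient `b`. -/
def Good (a c : ℤ) (ε : ℝ) (T : ℕ) (b : ℤ) : Prop :=
  ∃ K : ℝ, IsC a b c K ∧
    |(count a b c T : ℝ) - 2 * K * ∑ t ∈ Icc 1 T, 1 / Real.log ((f a b c t : ℤ) : ℝ)| ≤ ε * (T / Real.log T)

open Classical in
/-- The number of the integers `1 ≤ b ≤ B` for which `(a, b, c)` is admissible and the conclusion fails. -/
noncomputable def exceptions (a c : ℤ) (ε : ℝ) (B T : ℕ) : ℕ :=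
  ((Icc 1 B).filter (fun b : ℕ => Admissible a b c ∧ ¬ Good a c ε T b)).card

theorem result (a c : ℤ) (ha : 0 < a) (hc : c ≠ 0) :
    ∀ (ε : ℝ) (K C₂ : ℕ), 0 < ε → ∃ B₀ : ℕ, ∀ B : ℕ, B₀ ≤ B → ∀ T : ℕ,
      (B : ℝ) ≤ T * Real.log B ^ C₂ → T ≤ K * B → (exceptions a c ε B T : ℝ) ≤ ε * B := by
  classical
  intro ε K C₂ hε
  obtain ⟨B₀, h0⟩ := Pool.Agent.N728.QG.final2 a c ha hc ε K C₂ hε
  refine ⟨B₀, fun B hB T h1 h2 => ?_⟩
  have h3 := h0 B hB T h1 h2
  refine le_trans (le_of_eq ?_) h3
  unfold exceptions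
  congr!

end Pool.Agent.Results.MP_a17b09_nt.AlmostAllLinearCoefficients
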