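import Mathlib
import Pool.Agent.N792.TE2P

/-!
# Values of quadratic polynomials with exactly two prime factors, for almost all `c ≤ C`, `C ≥ x^(1/2+ε)`

The coefficients `a > 0` and `b` are fixed. For every `C` with `x^(1/2 + ε) ≤ C ≤ x` and all but at most
`C / (log x)^A` of the `c ≤ C`, the number of the `m ≤ x` in an interval for which
`a m² + b m + c = p q` with primes `p`, `q`, `y₁ < p ≤ y₂`, is given by the formula which the heuristics
of Hardy and Littlewood predict, with the full constant `C(a, b, c)` and an error `x / (log x)^A`, for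
all intervals `(y₁, y₂]` between `x^(3/2 + ε) / C` and `x^(1 - ε)`. The values counted have an even number
of prime factors, so that this is beyond the parity barrier; for a single `c` only the lower bound
of Iwaniec for the values with at most two prime factors is known.

Proof. Cauchy's inequality is applied to the sum over the triples of `c`, `p` and a root modulo `p`, the
arguments `n` and `n' = n + p e` being in the same class. For given `k = q`,
`k' = (a n'² + b n' + c) / p` and `e` the number `p` is the integer nearest to `(√k' - √k)² / (a e²)`, up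
to `O(C / k)`. The resulting sums with the phases `h √(k k') / (a e²)` are estimated by the double large
sieve, which is applied to all pairs `(h, k)` in given residue classes modulo `e` and `4 a e` at once and
not to one frequency `h` at a time: this needs the number of the solutions of
`|h² k - h₁² k₁| ≤ 2 a H e²` with congruences, and it saves a power of `x` as long as
`x^(3/2 + ε) ≤ C p`. The frequency `h = 0` is treated with the theorem of Siegel and Walfisz and the large
sieve, the mean values of the numbers of roots modulo `p` with Gauss sums and fourth moments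
(for `C ≥ x^(1/2 + ε)`), and the products cut at a power of the logarithm are compared with the infinite
products for almost all `c`.
-/

set_option autoImplicit false

namespace Pool.Agent.Results.MP_a17b09_nt.TwoPrimeFactors

open Finset Filter Topology

/-- the triple `(a, b, c)` is admissible: `a > 0`, `gcd(a, b, c) = 1`, the numbers `a + b` and `c` are
not both even, and the discriminant is not a square -/
def Admissible (a b c : ℤ) : Prop :=
  0 < a ∧ (∀ d : ℤ, d ∣ a → d ∣ b → d ∣ c → IsUnit d) ∧ ¬ ((2 : ℤ) ∣ a + b ∧ (2 : ℤ) ∣ c) ∧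
    ¬ IsSquare (b ^ 2 - 4 * a * c)

open Classical in
/-- the number of `u < m ≤ v` for which `a m² + b m + c = p q` with primes `p`, `q` and `y₁ < p ≤ y₂` -/
noncomputable def twoPrimeCount (a b c : ℤ) (u v y₁ y₂ : ℕ) : ℕ :=
  #((Ioc u v).filter (fun m : ℕ => ∃ p q : ℕ, p.Prime ∧ q.Prime ∧ y₁ < p ∧ p ≤ y₂ ∧
    a * (m : ℤ) ^ 2 + b * m + c = (p : ℤ) * q))

/-- `ε = 1` if `a + b` is even and `ε = 1 / 2` if `a + b` is odd -/
noncomputable def eps (a b : ℤ) : ℝ := if (2 : ℤ) ∣ a + b then 1 else 1 / 2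

/-- the product `∏_{p > 2, p ∣ gcd(a, b)} p / (p - 1)` -/
noncomputable def gcdProd (a b : ℤ) : ℝ :=
  ∏ p ∈ (Int.gcd a b).primeFactors.filter (fun p => 2 < p), (p : ℝ) / (p - 1)

/-- the product `∏_{2 < p ≤ z, p ∤ a} (1 - (D / p) / (p - 1))`, where `D = b² - 4 a c` -/
noncomputable def partialC (a b c : ℤ) (z : ℕ) : ℝ :=
  ∏ p ∈ (Icc 3 z).filter (fun p : ℕ => p.Prime ∧ ¬ (p : ℤ) ∣ a),
    (1 - (jacobiSym (b ^ 2 - 4 * a * c) p : ℝ) / (p - 1))

/-- **Products of two primes among the values of `a m² + b m + c` for almost all `c ≤ C`,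
`x^(1/2+ε) ≤ C ≤ x`.** Let `a > 0`, `b`, `ε > 0`, `R` and `A` be fixed. For `x ≥ x0` and every `C` with
`x^(1/2 + ε) ≤ C ≤ x`, all but at most `C / (log x)^A` of the `1 ≤ c ≤ C` have the following property:
if `(a, b, c)` is admissible, the product over the primes in `C(a, b, c)` converges to a number `S > 0`
and, with `M = ε S ∏_{p > 2, p ∣ gcd(a, b)} p / (p - 1)`, for all `x / R ≤ u ≤ v ≤ x` and all
`y₁ ≤ y₂ ≤ x^(1 - ε)` with `x^(3/2 + ε) ≤ C y₁` the number of `u < m ≤ v` for which
`a m² + b m + c = p q` with primes `p`, `q`, `y₁ < p ≤ y₂`, differs from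
`2 M ∑_{u < m ≤ v} ∑_{y₁ < p ≤ y₂} 1 / (p log ((a m² + b m + c) / p))` by at most `x / (log x)^A`. -/
theorem result (a : ℤ) (ha : 0 < a) (b : ℤ) (ε : ℝ) (hε : 0 < ε) (R A : ℕ) :
    ∃ x0 : ℕ, ∀ x : ℕ, x0 ≤ x → ∀ C : ℕ, (x : ℝ) ^ (1 / 2 + ε) ≤ C → C ≤ x →
    ∃ Ex ⊆ Icc 1 C, (#Ex : ℝ) ≤ C / Real.log x ^ A ∧ ∀ c ∈ Icc 1 C, c ∉ Ex → Admissible a b c →
      ∃ S : ℝ, 0 < S ∧ Tendsto (fun z => partialC a b c z) atTop (𝓝 S) ∧
        ∀ u v y₁ y₂ : ℕ, x ≤ R * u → u ≤ v → v ≤ x → (x : ℝ) ^ (3 / 2 + ε) ≤ C * y₁ → y₁ ≤ y₂ →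
          (y₂ : ℝ) ≤ (x : ℝ) ^ (1 - ε) →
          |(twoPrimeCount a b c u v y₁ y₂ : ℝ) -
            2 * (eps a b * S * gcdProd a b) * ∑ m ∈ Ioc u v, ∑ p ∈ (Ioc y₁ y₂).filter Nat.Prime,
              1 / ((p : ℝ) * Real.log (((a : ℝ) * m ^ 2 + b * m + c) / p))| ≤ x / Real.log x ^ A := by
  obtain ⟨x0, h⟩ := Pool.Agent.N792.te2_m a ha b ε hε R A
  refine ⟨x0, fun x hx C hC1 hC2 => ?_⟩
  obtain ⟨Ex, hE1, hE2, hE3⟩ := h x hx C hC1 hC2
  refine ⟨Ex, hE1, hE2, fun c hc hcE hadm => ?_⟩
  obtain ⟨S, hS, hSt, hb⟩ := hE3 c hc hcE hadm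
  refine ⟨S, hS, hSt, fun u v y₁ y₂ hxu huv hvx hy1 hy12 hy2 => ?_⟩
  have h4 := hb u v y₁ y₂ hxu huv hvx hy1 hy12 hy2
  have heps : Pool.Agent.N792.eps a b = 2 * eps a b := by
    unfold Pool.Agent.N792.eps eps
    split_ifs <;> norm_num
  rw [heps] at h4
  have e1 : 2 * eps a b * S * gcdProd a b = 2 * (eps a b * S * gcdProd a b) := by ring
  rw [← e1]
  exact h4

end Pool.Agent.Results.MP_a17b09_nt.TwoPrimeFactors
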