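import Mathlib
import Pool.Agent.N791.U.Final

/-!
# Products of two primes among the values of almost all quadratic polynomials of height `H`, up to `H^(4-ε)`

The coefficient `a > 0` is fixed. For all pairs of integers `|b|, |c| ≤ H` with at most `H² / (log H)^A`
exceptions, and for every length `N` with `H² ≤ N ≤ H^(4 - ε)`, the number of the `m` in an interval
`(u, v]`, `N / R ≤ u ≤ v ≤ N`, for which `a m² + b m + c = p q` with primes `p`, `q`, `y₁ < p ≤ y₂`, is given by the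
formula which the heuristics of Hardy and Littlewood predict, with the full constant `C(a, b, c)` and an
error `N / (log N)^A`, for all `y₁ ≤ y₂` between `N^(3/2 + ε) / H²` and `N^(1 - ε)`. The values are of the size
`N²`, which may be as large as `H^(8 - 2 ε)`, while there are only `4 H²` polynomials.

Proof. Completing the square, `a m² + b m + c = a n² + b₀ n + c₀` with `n = m + k`, `b = b₀ + 2 a k`,
`0 ≤ b₀ < 2 a` and `c₀ = c - a k² - b₀ k`, so that the pairs are a family of about `H²` constant terms `c₀`,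
of both signs, each of which occurs a bounded number of times, except for few pairs. A second shift, by
`H`, makes the constant terms positive, `a n² + b' n + c'` with `b'² ≤ 3 a · 2 a H²` and `1 ≤ c' ≤ 2 a H²`. The
type II estimate (Cauchy's inequality over `c'`, `p` and the roots modulo `p`, and a double large sieve over
the frequency and the cofactor jointly) holds uniformly for `b'² ≤ Λ C`: in the expansion of the values
near the diagonal the term `b'² / (4 a)` only moves the windows of the Fourier expansion.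
-/

set_option autoImplicit false

namespace Pool.Agent.Results.MP_a17b09_nt.TwoPrimeFactorsOfPairs

open Finset Filter Topology

/-- the triple `(a, b, c)` is admissible: `a > 0`, `gcd(a, b, c) = 1`, the numbers `a + b` and `c` are
not both even, and the discriminant is not a square -/
def Admissible (a b c : ℤ) : Prop :=
  0 < a ∧ (∀ d : ℤ, d ∣ a → d ∣ b → d ∣ c → IsUnit d) ∧ ¬ ((2 : ℤ) ∣ a + b ∧ (2 : ℤ) ∣ c) ∧
    ¬ IsSquare (b ^ 2 - 4 * a * c)

open Classical in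
/-- the number of `u < m ≤ v` for which `a m² + b m + c = p q` with primes `p`, `q` and `y₁ < p ≤ y₂` -/
noncomputable def twoPrimeCount (a b c : ℤ) (u v y₁ y₂ : ℕ) : ℕ :=
  #((Ioc u v).filter (fun m : ℕ => ∃ p q : ℕ, p.Prime ∧ q.Prime ∧ y₁ < p ∧ p ≤ y₂ ∧
    a * (m : ℤ) ^ 2 + b * m + c = (p : ℤ) * q))

/-- `ε = 1` if `a + b` is even and `ε = 1 / 2` if `a + b` is odd -/
noncomputable def eps (a b : ℤ) : ℝ := if (2 : ℤ) ∣ a + b then 1 else 1 / 2

/-- the product `∏_{p > 2, p ∣ gcd(a, b)} p / (p - 1)` -/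
noncomputable def gcdProd (a b : ℤ) : ℝ :=
  ∏ p ∈ (Int.gcd a b).primeFactors.filter (fun p => 2 < p), (p : ℝ) / (p - 1)

/-- the product `∏_{2 < p ≤ z, p ∤ a} (1 - (D / p) / (p - 1))`, where `D = b² - 4 a c` -/
noncomputable def partialC (a b c : ℤ) (z : ℕ) : ℝ :=
  ∏ p ∈ (Icc 3 z).filter (fun p : ℕ => p.Prime ∧ ¬ (p : ℤ) ∣ a),
    (1 - (jacobiSym (b ^ 2 - 4 * a * c) p : ℝ) / (p - 1))

/-- **Products of two primes among the values of almost all `a m² + b m + c`, `|b|, |c| ≤ H`,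
`H² ≤ N ≤ H^(4-ε)`.** Let `a > 0`, `ε > 0`, `R` and `A` be fixed. For `H ≥ H0` and every `N` with
`H² ≤ N ≤ H^(4 - ε)`, all but at most `H² / (log H)^A` of the pairs `q = (b, c)` of integers with `|b|, |c| ≤ H`
have the following property: if `(a, b, c)` is admissible, the product over the primes in `C(a, b, c)`
converges to a number `S > 0` and, with `M = ε S ∏_{p > 2, p ∣ gcd(a, b)} p / (p - 1)`, for all
`N / R ≤ u ≤ v ≤ N` and all `y₁ ≤ y₂ ≤ N^(1 - ε)` with `N^(3/2 + ε) ≤ H² y₁` the number of `u < m ≤ v` for which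
`a m² + b m + c = p q` with primes `p`, `q`, `y₁ < p ≤ y₂`, differs from
`2 M ∑_{u < m ≤ v} ∑_{y₁ < p ≤ y₂} 1 / (p log ((a m² + b m + c) / p))` by at most `N / (log N)^A`. -/
theorem result (a : ℤ) (ha : 0 < a) (ε : ℝ) (hε : 0 < ε) (R A : ℕ) :
    ∃ H0 : ℕ, ∀ H : ℕ, H0 ≤ H → ∀ N : ℕ, H ^ 2 ≤ N → (N : ℝ) ≤ (H : ℝ) ^ (4 - ε) →
    ∃ Ex ⊆ Icc (-(H : ℤ)) H ×ˢ Icc (-(H : ℤ)) H, (#Ex : ℝ) ≤ H ^ 2 / Real.log H ^ A ∧
      ∀ q ∈ Icc (-(H : ℤ)) H ×ˢ Icc (-(H : ℤ)) H, q ∉ Ex → Admissible a q.1 q.2 →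
      ∃ S : ℝ, 0 < S ∧ Tendsto (fun z => partialC a q.1 q.2 z) atTop (𝓝 S) ∧
        ∀ u v y₁ y₂ : ℕ, N ≤ R * u → u ≤ v → v ≤ N → (N : ℝ) ^ (3 / 2 + ε) ≤ (H : ℝ) ^ 2 * y₁ → y₁ ≤ y₂ →
          (y₂ : ℝ) ≤ (N : ℝ) ^ (1 - ε) →
          |(twoPrimeCount a q.1 q.2 u v y₁ y₂ : ℝ) -
            2 * (eps a q.1 * S * gcdProd a q.1) * ∑ m ∈ Ioc u v, ∑ p ∈ (Ioc y₁ y₂).filter Nat.Prime,
              1 / ((p : ℝ) * Real.log (((a : ℝ) * m ^ 2 + q.1 * m + q.2) / p))| ≤ N / Real.log N ^ A := by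
  have haR : (1 : ℝ) ≤ a := by exact_mod_cast ha
  obtain ⟨H0, h⟩ := Pool.Agent.N791.U.pair_e2 a ha (Pool.Agent.N791.U.xeUt a ha (3 * a) (by linarith)) ε hε R A
  refine ⟨H0, fun H hH N hN1 hN2 => ?_⟩
  obtain ⟨Ex, hE1, hE2, hE3⟩ := h H hH N hN1 hN2
  refine ⟨Ex, hE1, hE2, fun q hq hqE hadm => ?_⟩
  obtain ⟨S, hS, hSt, hb⟩ := hE3 q hq hqE hadm
  refine ⟨S, hS, hSt, fun u v y₁ y₂ hxu huv hvx hy1 hy12 hy2 => ?_⟩
  have h4 := hb u v y₁ y₂ hxu huv hvx (by push_cast; exact hy1) hy12 hy2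
  have heps : Pool.Agent.N792.eps a q.1 = 2 * eps a q.1 := by
    unfold Pool.Agent.N792.eps eps
    split_ifs <;> norm_num
  rw [heps] at h4
  have e1 : 2 * eps a q.1 * S * gcdProd a q.1 = 2 * (eps a q.1 * S * gcdProd a q.1) := by ring
  rw [← e1]
  exact h4

end Pool.Agent.Results.MP_a17b09_nt.TwoPrimeFactorsOfPairs
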